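import Pool.Agent.helper87.FS.Spec

/-!
MP_abccb5, project FS, row MVT: adding a vertex
-/

set_option autoImplicit false

namespace Pool.Agent.FS

open Polynomial Matrix Pool.Agent.helper42.NS

theorem MVT_eq {K : Type} [Field K] {lam : K} {t k : ℕ} {H : Matrix (Fin t) (Fin t) ℤ} {B : Fin k → Fin t → Bool}
    {b : Fin t → Bool} {z : Fin k → Bool} {w : Fin (t + 1) → K} (hw : w ∈ EM K lam (bord H (ind b)) (cz z B)) (i : Fin t) :
    (ind b i : K) * w 0 + ∑ j : Fin t, (H i j : K) * w j.succ = lam * w i.succ := by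
  have h1 := mem_EigK.1 hw.1 i.succ
  rw [Fin.sum_univ_succ] at h1
  simpa using h1

theorem MVT_mk {K : Type} [Field K] {lam : K} {t k : ℕ} {H : Matrix (Fin t) (Fin t) ℤ} {B : Fin k → Fin t → Bool}
    {b : Fin t → Bool} {z : Fin k → Bool} {w : Fin (t + 1) → K} (hw : w ∈ EM K lam (bord H (ind b)) (cz z B)) (i : Fin k) :
    (if z i then w 0 else 0) + dotb (B i) (fun j => w j.succ) = 0 := by
  have h1 := hw.2 i
  unfold dotb at h1
  rw [Fin.sum_univ_succ] at h1
  exact h1

theorem MVT_mem {K : Type} [Field K] {lam : K} {t k : ℕ} {H : Matrix (Fin t) (Fin t) ℤ} {B : Fin k → Fin t → Bool}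
    {b : Fin t → Bool} {z : Fin k → Bool} {w : Fin (t + 1) → K} (hw : w ∈ EM K lam (bord H (ind b)) (cz z B)) (h0 : w 0 = 0) :
    (fun i : Fin t => w i.succ) ∈ EM K lam H B := by
  refine ⟨?_, fun i => ?_⟩
  · rw [mem_EigK]
    intro i
    have h1 := MVT_eq hw i
    rw [h0, mul_zero, zero_add] at h1
    exact h1
  · have h1 := MVT_mk hw i
    rw [h0, ite_self, zero_add] at h1
    exact h1

theorem MVT_zero {K : Type} [Field K] {lam : K} {t k : ℕ} {H : Matrix (Fin t) (Fin t) ℤ} {B : Fin k → Fin t → Bool}
    {b : Fin t → Bool} {z : Fin k → Bool} (hB : ¬ Bth K lam H B b z) {w : Fin (t + 1) → K}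
    (hw : w ∈ EM K lam (bord H (ind b)) (cz z B)) : w 0 = 0 := by
  by_contra h0
  refine hB ⟨fun i => w i.succ * (w 0)⁻¹, fun j => ?_, fun i => ?_⟩
  · have h1 := MVT_eq hw j
    have h2 : ∑ i, (H j i : K) * (w i.succ * (w 0)⁻¹) = (∑ i, (H j i : K) * w i.succ) * (w 0)⁻¹ := by
      rw [Finset.sum_mul]
      refine Finset.sum_congr rfl fun i _ => ?_
      rw [mul_assoc]
    have h3 : ∑ i, (H j i : K) * w i.succ = lam * w j.succ - (ind b j : K) * w 0 := by
      rw [← h1]
      ring
    have h4 : (ind b j : K) = if b j then 1 else 0 := by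
      unfold ind
      split_ifs <;> simp
    rw [h2, h3, sub_mul, mul_assoc, mul_assoc, mul_inv_cancel₀ h0, mul_one, h4]
    ring
  · have h1 := MVT_mk hw i
    have h2 : dotb (B i) (fun j => w j.succ * (w 0)⁻¹) = dotb (B i) (fun j => w j.succ) * (w 0)⁻¹ := by
      unfold dotb
      rw [Finset.sum_mul]
      refine Finset.sum_congr rfl fun j _ => ?_
      split_ifs <;> simp
    have h3 : (if z i then (1 : K) else 0) = (if z i then w 0 else 0) * (w 0)⁻¹ := by
      split_ifs
      · rw [mul_inv_cancel₀ h0]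
      · rw [zero_mul]
    rw [h2, h3, ← add_mul, add_comm, h1, zero_mul]

/-- Row MVT. -/
theorem MVT : MVT_stmt := by
  intro K _ lam t k H B b z
  constructor
  · let φ : EM K lam (bord H (ind b)) (cz z B) →ₗ[K] K :=
      (LinearMap.proj (0 : Fin (t + 1))).comp (EM K lam (bord H (ind b)) (cz z B)).subtype
    have hφ : ∀ w, φ w = (w : Fin (t + 1) → K) 0 := fun _ => rfl
    let ψ : LinearMap.ker φ →ₗ[K] EM K lam H B :=
      { toFun := fun w => ⟨fun i => (w : EM K lam (bord H (ind b)) (cz z B)).1 i.succ,
          MVT_mem w.1.2 (by have := w.2; rw [LinearMap.mem_ker, hφ] at this; exact this)⟩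
        map_add' := fun _ _ => rfl
        map_smul' := fun _ _ => rfl }
    have hψ : Function.Injective ψ := by
      intro w w' hww
      apply Subtype.ext
      apply Subtype.ext
      funext i
      have hw := w.2
      have hw' := w'.2
      rw [LinearMap.mem_ker, hφ] at hw hw'
      refine Fin.cases ?_ (fun j => ?_) i
      · rw [hw, hw']
      · have := congrArg Subtype.val hww
        exact congrFun this j
    have h1 := LinearMap.finrank_range_add_finrank_ker φ
    have h2 := LinearMap.finrank_le_finrank_of_injective hψ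
    have h3 : Module.finrank K (LinearMap.range φ) ≤ 1 := by
      have := Submodule.finrank_le (LinearMap.range φ)
      rwa [Module.finrank_self] at this
    omega
  · intro hB
    let ψ : EM K lam (bord H (ind b)) (cz z B) →ₗ[K] EM K lam H B :=
      { toFun := fun w => ⟨fun i => w.1 i.succ, MVT_mem w.2 (MVT_zero hB w.2)⟩
        map_add' := fun _ _ => rfl
        map_smul' := fun _ _ => rfl }
    have hψ : Function.Injective ψ := by
      intro w w' hww
      apply Subtype.ext
      funext i
      refine Fin.cases ?_ (fun j => ?_) i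
      · rw [MVT_zero hB w.2, MVT_zero hB w'.2]
      · have := congrArg Subtype.val hww
        exact congrFun this j
    exact LinearMap.finrank_le_finrank_of_injective hψ

end Pool.Agent.FS
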