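import Pool.Agent.helper78.FS.Spec

/-!
# MP_55808c_co, project FS, row PRI (the prism)
-/

set_option autoImplicit false

namespace Pool.Agent.helper78.FS

open Finset Real
open Classical

noncomputable section

lemma PRI_kap_comm (t : ℝ) (a b : E3) : kap t b a = kap t a b := by
  unfold kap
  exact if_congr or_comm rfl rfl

lemma PRI_kap_self (t : ℝ) (a : E3) : kap t a a = 0 := by
  unfold kap
  rw [if_neg]
  rintro (h | h)
  · exact absurd h.1 (not_lt.mpr h.2.1)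
  · exact absurd h.1 (not_lt.mpr h.2.1)

lemma PRI_two (x : ZMod 2) : x + x = 0 := CharTwo.add_self_eq_zero x

/-- `om` is symmetric in the first two entries -/
lemma PRI_om_swap12 (t : ℝ) (a b c : E3) : om t b a c = om t a b c := by
  unfold om dkap
  rw [PRI_kap_comm t a b]
  have h : (0 < zc t b ∧ 0 < zc t a ∧ 0 < zc t c) ↔ (0 < zc t a ∧ 0 < zc t b ∧ 0 < zc t c) := by tauto
  rw [if_congr h rfl rfl]
  congr 1
  ring

/-- `om` is symmetric in the last two entries -/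
lemma PRI_om_swap23 (t : ℝ) (a b c : E3) : om t a c b = om t a b c := by
  unfold om dkap
  rw [PRI_kap_comm t b c]
  have h : (0 < zc t a ∧ 0 < zc t c ∧ 0 < zc t b) ↔ (0 < zc t a ∧ 0 < zc t b ∧ 0 < zc t c) := by tauto
  rw [if_congr h rfl rfl]
  congr 1
  ring

/-- `om` vanishes on degenerate triples -/
lemma PRI_om_self12 (t : ℝ) (a c : E3) : om t a a c = 0 := by
  unfold om dkap
  rw [PRI_kap_self, zero_add, PRI_two]
  simp

lemma PRI_om_self23 (t : ℝ) (a c : E3) : om t a c c = 0 := by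
  rw [← PRI_om_swap12, ← PRI_om_swap23]
  exact PRI_om_self12 t c a

lemma PRI_om_sym3 (t : ℝ) : Sym3 (om t) :=
  ⟨fun a b c => PRI_om_swap12 t a b c, fun a b c => PRI_om_swap23 t a b c, fun a b => PRI_om_self12 t a b⟩

/-- the points `x, y, φ x, φ y` are close points of the sphere -/
def PRI_P (φ : E3 → E3) (r L : ℝ) (x y : E3) : Prop :=
  (‖x‖ = r ∧ ‖y‖ = r ∧ ‖φ x‖ = r ∧ ‖φ y‖ = r) ∧ dist x y ≤ L ∧ dist x (φ x) ≤ L ∧ dist x (φ y) ≤ L ∧
    dist y (φ x) ≤ L ∧ dist y (φ y) ≤ L ∧ dist (φ x) (φ y) ≤ L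

lemma PRI_P_comm (φ : E3 → E3) (r L : ℝ) (x y : E3) : PRI_P φ r L y x ↔ PRI_P φ r L x y := by
  unfold PRI_P
  rw [dist_comm y x, dist_comm (φ y) (φ x)]
  tauto

theorem PRI : PRI_stmt := by
  intro hAXS hCOC ι _ a b c φ t L r hL hr hClo hf
  set q : E3 → E3 → ZMod 2 := fun x y => if PRI_P φ r L x y then om t x y (φ x) + om t y (φ x) (φ y) else 0 with hq
  have hq0 : ∀ x, q x x = 0 := by
    intro x
    simp only [hq]
    split_ifs
    · rw [PRI_om_self12, PRI_om_self23, add_zero]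
    · rfl
  have hqs : ∀ x y, q y x = q x y := by
    intro x y
    simp only [hq]
    rw [if_congr (PRI_P_comm φ r L x y) rfl rfl]
    split_ifs with hP
    · obtain ⟨⟨h1, h2, h3, h4⟩, d1, d2, d3, d4, d5, d6⟩ := hP
      have hc := hCOC hAXS t L r x y (φ x) (φ y) hL hr h1 h2 h3 h4 d1 d2 d3 d4 d5 d6
      rw [PRI_om_swap12 t x y (φ y), PRI_om_swap23 t x (φ x) (φ y)]
      have e1 := PRI_two (om t y (φ x) (φ y))
      have e2 := PRI_two (om t x y (φ x))
      linear_combination hc - e1 - e2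
    · rfl
  have key := hClo q hq0 hqs
  have hloc : ∀ f, q (a f) (b f) + q (b f) (c f) + q (c f) (a f)
      = om t (φ (a f)) (φ (b f)) (φ (c f)) + om t (a f) (b f) (c f) := by
    intro f
    have H := hf f
    have hn : ∀ x ∈ ({a f, b f, c f, φ (a f), φ (b f), φ (c f)} : Set E3), ‖x‖ = r := fun x hx => (H x hx).1
    have hd : ∀ x ∈ ({a f, b f, c f, φ (a f), φ (b f), φ (c f)} : Set E3),
        ∀ y ∈ ({a f, b f, c f, φ (a f), φ (b f), φ (c f)} : Set E3), dist x y ≤ L := fun x hx => (H x hx).2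
    generalize a f = A at *
    generalize b f = B at *
    generalize c f = C at *
    have mA : A ∈ ({A, B, C, φ A, φ B, φ C} : Set E3) := by simp
    have mB : B ∈ ({A, B, C, φ A, φ B, φ C} : Set E3) := by simp
    have mC : C ∈ ({A, B, C, φ A, φ B, φ C} : Set E3) := by simp
    have mA' : φ A ∈ ({A, B, C, φ A, φ B, φ C} : Set E3) := by simp
    have mB' : φ B ∈ ({A, B, C, φ A, φ B, φ C} : Set E3) := by simp
    have mC' : φ C ∈ ({A, B, C, φ A, φ B, φ C} : Set E3) := by simp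
    have P1 : PRI_P φ r L A B := ⟨⟨hn _ mA, hn _ mB, hn _ mA', hn _ mB'⟩, hd _ mA _ mB, hd _ mA _ mA', hd _ mA _ mB',
      hd _ mB _ mA', hd _ mB _ mB', hd _ mA' _ mB'⟩
    have P2 : PRI_P φ r L B C := ⟨⟨hn _ mB, hn _ mC, hn _ mB', hn _ mC'⟩, hd _ mB _ mC, hd _ mB _ mB', hd _ mB _ mC',
      hd _ mC _ mB', hd _ mC _ mC', hd _ mB' _ mC'⟩
    have P3 : PRI_P φ r L A C := ⟨⟨hn _ mA, hn _ mC, hn _ mA', hn _ mC'⟩, hd _ mA _ mC, hd _ mA _ mA', hd _ mA _ mC',
      hd _ mC _ mA', hd _ mC _ mC', hd _ mA' _ mC'⟩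
    rw [hqs A C]
    simp only [hq]
    rw [if_pos P1, if_pos P2, if_pos P3]
    have c1 := hCOC hAXS t L r A B C (φ A) hL hr (hn _ mA) (hn _ mB) (hn _ mC) (hn _ mA')
      (hd _ mA _ mB) (hd _ mA _ mC) (hd _ mA _ mA') (hd _ mB _ mC) (hd _ mB _ mA') (hd _ mC _ mA')
    have c2 := hCOC hAXS t L r B C (φ A) (φ B) hL hr (hn _ mB) (hn _ mC) (hn _ mA') (hn _ mB')
      (hd _ mB _ mC) (hd _ mB _ mA') (hd _ mB _ mB') (hd _ mC _ mA') (hd _ mC _ mB') (hd _ mA' _ mB')
    have c3 := hCOC hAXS t L r C (φ A) (φ B) (φ C) hL hr (hn _ mC) (hn _ mA') (hn _ mB') (hn _ mC')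
      (hd _ mC _ mA') (hd _ mC _ mB') (hd _ mC _ mC') (hd _ mA' _ mB') (hd _ mA' _ mC') (hd _ mB' _ mC')
    have e1 := PRI_two (om t B C (φ A))
    have e2 := PRI_two (om t C (φ A) (φ B))
    have e3 := PRI_two (om t (φ A) (φ B) (φ C))
    have e4 := PRI_two (om t A B C)
    linear_combination c1 + c2 + c3 - e1 - e2 - e3 - e4
  rw [Finset.sum_congr rfl (fun f _ => hloc f), Finset.sum_add_distrib] at key
  have e := PRI_two (∑ f, om t (a f) (b f) (c f))
  linear_combination key - e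

end

end Pool.Agent.helper78.FS
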